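import Pool.Agent.V5helper49.IR.Stm2

/-!
# Job IR-SUB: the probability that a random set contains a given set
-/

set_option autoImplicit false

namespace Pool.Agent.V5helper82.IR

open Finset
open Pool.Agent.V5helper49.IR

theorem EB_congr (p : ℕ → ℝ) : ∀ (M : ℕ) (F G : Finset ℕ → ℝ),
    (∀ B : Finset ℕ, B ⊆ range M → F B = G B) → EB p M F = EB p M G
  | 0, F, G, h => by
    show F ∅ = G ∅
    exact h ∅ (Finset.empty_subset _)
  | M + 1, F, G, h => by
    show p M * EB p M (fun B => F (insert M B)) + (1 - p M) * EB p M F =
      p M * EB p M (fun B => G (insert M B)) + (1 - p M) * EB p M G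
    rw [EB_congr p M (fun B => F (insert M B)) (fun B => G (insert M B)) (fun B hB => h _ ?_),
      EB_congr p M F G (fun B hB => h _ ?_)]
    · intro x hx
      have := mem_range.1 (hB hx)
      exact mem_range.2 (by omega)
    · intro x hx
      rcases Finset.mem_insert.1 hx with rfl | hx
      · exact mem_range.2 (by omega)
      · have := mem_range.1 (hB hx)
        exact mem_range.2 (by omega)

theorem EB_zero (p : ℕ → ℝ) : ∀ M : ℕ, EB p M (fun _ => 0) = 0
  | 0 => rfl
  | M + 1 => by
    show p M * EB p M (fun _ => 0) + (1 - p M) * EB p M (fun _ => 0) = 0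
    rw [EB_zero p M]
    ring

theorem t_SUB : S_SUB := by
  intro p M
  induction M with
  | zero =>
    intro T hT
    have h0 : T = ∅ := by
      rw [range_zero] at hT
      exact Finset.subset_empty.1 hT
    subst h0
    show (if (∅ : Finset ℕ) ⊆ ∅ then (1 : ℝ) else 0) = _
    simp
  | succ M ih =>
    intro T hT
    show p M * EB p M (fun B => if T ⊆ insert M B then 1 else 0) +
      (1 - p M) * EB p M (fun B => if T ⊆ B then 1 else 0) = _
    have h1 : T.erase M ⊆ range M := by
      intro x hx
      have hx1 := Finset.ne_of_mem_erase hx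
      have hx2 := mem_range.1 (hT (Finset.mem_of_mem_erase hx))
      exact mem_range.2 (by omega)
    have h2 : EB p M (fun B => if T ⊆ insert M B then (1 : ℝ) else 0) =
        ∏ t ∈ T.erase M, p t := by
      rw [← ih (T.erase M) h1]
      refine EB_congr p M _ _ fun B _ => ?_
      have h3 : (T ⊆ insert M B) = (T.erase M ⊆ B) := propext Finset.subset_insert_iff
      simp only [h3]
    rw [h2]
    by_cases hM : M ∈ T
    · have h4 : EB p M (fun B => if T ⊆ B then (1 : ℝ) else 0) = 0 := by
        refine (EB_congr p M _ (fun _ => 0) fun B hB => ?_).trans (EB_zero p M)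
        refine if_neg fun h5 => ?_
        exact absurd (mem_range.1 (hB (h5 hM))) (by omega)
      rw [h4, mul_zero, add_zero, Finset.mul_prod_erase T p hM]
    · have h6 : T ⊆ range M := by
        rw [Finset.erase_eq_of_notMem hM] at h1
        exact h1
      rw [Finset.erase_eq_of_notMem hM, ih T h6]
      ring

end Pool.Agent.V5helper82.IR
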